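import Mathlib
import Pool.Agent.Y129.TB.Final
import Pool.Agent.W476.TP.Stm

/-!
# Project MG (helper80, MP_db3ab1_ag): multigraded complete intersections

Statements of the separate parts. The coordinates `Sig m`, the multihomogeneous polynomials `MH` and the
relevant vectors `Rel` are those of `Pool.Agent.W476.TP.Stm`.
-/

set_option autoImplicit false

namespace Pool.Agent.L7h80.MG

open MvPolynomial Pool.Agent.Y129.TA Pool.Agent.Y129.TB
open Pool.Agent.W476.TP (Sig wt MH Rel)

/-- the exponents of the monomials of multidegree `D` -/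
abbrev Mon {r : ℕ} (m D : Fin r → ℕ) : Type := {α : Sig m →₀ ℕ // Finsupp.weight (wt m) α = D}

/-- the value of a monomial of multidegree `D` -/
noncomputable def mon {L : Type} [Field L] {r : ℕ} {m D : Fin r → ℕ} (y : Sig m → L)
    (μ : Mon m D) : L := ∏ i, y i ^ (μ.1 i)

/-- The cone over the image, under the map given by all monomials of multidegree `D`, of the set of
the common zeros of the `G j` in the product of the projective spaces. -/
def SV {L k κG : Type} [Field L] [Field k] [Algebra k L] {r : ℕ} {m : Fin r → ℕ}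
    (G : κG → MvPolynomial (Sig m) k) (D : Fin r → ℕ) : Set (Mon m D → L) :=
  {w | ∃ y : Sig m → L, Rel y ∧ (∀ j, aeval y (G j) = 0) ∧
    ∀ μ ν : Mon m D, w μ * mon y ν = w ν * mon y μ}

/-- ELIM: this is a closed cone defined over the base field. -/
def S_ELIM : Prop :=
  ∀ (k L : Type) [Field k] [Field L] [Algebra k L] [IsAlgClosed L] {r : ℕ} (m D : Fin r → ℕ)
    (κG : Type) [Fintype κG] (G : κG → MvPolynomial (Sig m) k) (b : κG → Fin r → ℕ),
    (∀ j, MH (G j) (b j)) → IsConeOver k (SV (L := L) G D)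

/-- EXC: common zeros of multihomogeneous forms on a product of closed subsets of projective
spaces. -/
def S_EXC : Prop :=
  ∀ (L : Type) [Field L] [IsAlgClosed L] {r : ℕ} (m d : Fin r → ℕ)
    (Y : ∀ κ, Set (Fin (m κ + 1) → L)), (∀ κ, IsConeOver L (Y κ)) → (∀ κ, DimGE (Y κ) (d κ)) →
    ∀ (J : Type) [Fintype J] (F : J → MvPolynomial (Sig m) L) (δ : J → Fin r → ℕ),
    (∀ j, MH (F j) (δ j)) → ∀ τ : J → Fin r, (∀ j, 0 < δ j (τ j)) →
      (∀ κ, Nat.card {j // τ j = κ} ≤ d κ) →
    ∃ y : Sig m → L, Rel y ∧ (∀ κ, (fun i => y ⟨κ, i⟩) ∈ Y κ) ∧ ∀ j, eval y (F j) = 0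

/-- MAPP: the approximation lemma for multihomogeneous polynomials (`Pool.Agent.Y129.TB.approx` is
the case of one group of coordinates). -/
def S_MAPP : Prop :=
  ∀ (p : ℕ) [Fact p.Prime] (C F K E : Type) [Field C] [Field F] [CharP F p] [Field K] [Field E]
    [Algebra K C] [Algebra E F] [IsAlgClosed F] (T : Tilting p C F), BaseField T K E →
    ∀ {r : ℕ} (m : Fin r → ℕ) (g : MvPolynomial (Sig m) K) (a : Fin r → ℕ), MH g a →
    ∀ ε : ℝ, 0 < ε → ∃ (M : ℕ) (h : MvPolynomial (Sig m) E), MH h (p ^ M • a) ∧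
      ∀ v : Sig m → F, (∀ i, T.absF (v i) ≤ 1) → aeval v h = 0 →
        T.absK (aeval (fun i => T.sharp (v i)) g) ≤ ε

end Pool.Agent.L7h80.MG
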