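import Mathlib
import Pool.Agent.L7h80.MG.Stm
import Pool.Agent.N150.JN.Main

/-!
# Project MG: multihomogeneous polynomials and the map given by all monomials of a multidegree
-/

set_option autoImplicit false

namespace Pool.Agent.L7h80.MG

open MvPolynomial Pool.Agent.Y129.TA Pool.Agent.Y129.TB Pool.Agent.R388.TP
open Pool.Agent.W476.TP (Sig wt MH Rel)

variable {r : ℕ} {m D : Fin r → ℕ}

theorem weight_wt (α : Sig m →₀ ℕ) (κ : Fin r) :
    Finsupp.weight (wt m) α κ = ∑ i, α ⟨κ, i⟩ := by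
  rw [Finsupp.weight_apply, Finsupp.sum_fintype _ _ (fun i => by exact zero_smul ℕ _),
    Finset.sum_apply, Fintype.sum_sigma, Finset.sum_eq_single κ]
  · refine Finset.sum_congr rfl fun i _ => ?_
    simp [wt]
  · intro b _ hb
    refine Finset.sum_eq_zero fun i _ => ?_
    simp [wt, Pi.single_eq_of_ne (Ne.symm hb)]
  · intro h
    exact absurd (Finset.mem_univ _) h

theorem prod_scale {L : Type} [Field L] (α : Sig m →₀ ℕ) (c : Fin r → L) :
    ∏ i : Sig m, c i.1 ^ α i = ∏ κ, c κ ^ (Finsupp.weight (wt m) α κ) := by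
  rw [Fintype.prod_sigma]
  refine Finset.prod_congr rfl fun κ _ => ?_
  rw [weight_wt]
  exact Finset.prod_pow_eq_pow_sum Finset.univ (fun i => α ⟨κ, i⟩) (c κ)

theorem aeval_scale {k L : Type} [Field k] [Field L] [Algebra k L] {g : MvPolynomial (Sig m) k}
    {a : Fin r → ℕ} (hg : MH g a) (c : Fin r → L) (y : Sig m → L) :
    aeval (fun i => c i.1 * y i) g = (∏ κ, c κ ^ a κ) * aeval y g := by
  rw [aeval_def, aeval_def, eval₂_eq', eval₂_eq', Finset.mul_sum]
  refine Finset.sum_congr rfl fun α hα => ?_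
  have h1 : Finsupp.weight (wt m) α = a := hg (mem_support_iff.1 hα)
  simp_rw [mul_pow]
  rw [Finset.prod_mul_distrib, prod_scale, h1]
  ring

instance finiteMon : Finite (Mon m D) := by
  have hle : ∀ (μ : Mon m D) (i : Sig m), μ.1 i < D i.1 + 1 := by
    rintro μ ⟨κ, i⟩
    have h1 := congrFun μ.2 κ
    rw [weight_wt] at h1
    have h2 := Finset.single_le_sum (f := fun i => μ.1 ⟨κ, i⟩) (fun _ _ => Nat.zero_le _)
      (Finset.mem_univ i)
    exact Nat.lt_succ_of_le (h2.trans h1.le)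
  refine Finite.of_injective (fun (μ : Mon m D) (i : Sig m) => (⟨μ.1 i, hle μ i⟩ : Fin (D i.1 + 1))) ?_
  intro μ ν h
  refine Subtype.ext (Finsupp.ext fun i => ?_)
  exact congrArg Fin.val (congrFun h i)

noncomputable instance fintypeMon : Fintype (Mon m D) := Fintype.ofFinite _

theorem mon_eq {L : Type} [Field L] (y : Sig m → L) (μ : Mon m D) :
    mon y μ = eval y (monomial μ.1 1) := by
  rw [eval_monomial, one_mul, Finsupp.prod_fintype _ _ (by simp), mon]

theorem mon_scale {L : Type} [Field L] (c : Fin r → L) (y : Sig m → L) (μ : Mon m D) :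
    mon (fun i => c i.1 * y i) μ = (∏ κ, c κ ^ D κ) * mon y μ := by
  unfold mon
  simp_rw [mul_pow]
  rw [Finset.prod_mul_distrib, prod_scale, μ.2]

/-- a substitution by weighted homogeneous polynomials of the same degree -/
theorem wh_subst {σ τ k M : Type} [Field k] [AddCommMonoid M] [Fintype σ] (w : τ → M)
    {P : MvPolynomial σ k} {t : ℕ} (hP : P.IsHomogeneous t) (u : σ → MvPolynomial τ k) (D : M)
    (hu : ∀ i, IsWeightedHomogeneous w (u i) D) : IsWeightedHomogeneous w (aeval u P) (t • D) := by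
  rw [aeval_def, eval₂_eq']
  refine IsWeightedHomogeneous.sum _ _ _ fun α hα => ?_
  have h1 := sum_of_homogeneous hP hα
  have h2 := IsWeightedHomogeneous.prod Finset.univ (fun i => u i ^ α i) (fun i => α i • D)
    (w := w) (fun i _ => (hu i).pow (α i))
  have h3 := (isWeightedHomogeneous_C w (coeff α P)).mul h2
  rw [zero_add, ← Finset.sum_smul, h1] at h3
  exact h3

/-- the pull back of a form in the monomials -/
noncomputable def pull {k : Type} [Field k] (q : MvPolynomial (Mon m D) k) :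
    MvPolynomial (Sig m) k := aeval (fun μ : Mon m D => monomial μ.1 (1 : k)) q

theorem mh_pull {k : Type} [Field k] {q : MvPolynomial (Mon m D) k} {t : ℕ}
    (hq : q.IsHomogeneous t) : MH (pull q) (t • D) :=
  wh_subst (wt m) hq _ D fun μ => isWeightedHomogeneous_monomial _ _ _ μ.2

theorem aeval_pull {k L : Type} [Field k] [Field L] [Algebra k L] (q : MvPolynomial (Mon m D) k)
    (y : Sig m → L) : aeval y (pull q) = aeval (mon y) q := by
  unfold pull
  rw [← AlgHom.comp_apply]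
  have h : (aeval y : MvPolynomial (Sig m) k →ₐ[k] L).comp
      (aeval fun μ : Mon m D => monomial μ.1 (1 : k)) = aeval (mon y) := by
    apply algHom_ext
    intro μ
    rw [AlgHom.comp_apply, aeval_X, aeval_X, aeval_monomial, map_one, one_mul,
      Finsupp.prod_fintype _ _ (by simp)]
    rfl
  rw [h]

theorem eval_pull' {L : Type} [Field L] (q : MvPolynomial (Mon m D) L) (y : Sig m → L) :
    eval y (pull q) = eval (mon y) q := by
  have h := aeval_pull (k := L) (L := L) q y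
  rwa [aeval_eq_eval, aeval_eq_eval] at h

theorem map_pull {k L : Type} [Field k] [Field L] [Algebra k L] (q : MvPolynomial (Mon m D) k)
    (y : Sig m → L) : eval y (pull (MvPolynomial.map (algebraMap k L) q)) = aeval (mon y) q := by
  rw [eval_pull', eval_map_alg]

/-- the monomial of a choice of coordinates -/
noncomputable def chm (i : ∀ κ, Fin (m κ + 1)) : Mon m D :=
  ⟨∑ κ, Finsupp.single (⟨κ, i κ⟩ : Sig m) (D κ), by
    rw [map_sum]
    funext κ
    rw [Finset.sum_apply, Finset.sum_eq_single κ]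
    · simp [Finsupp.weight_single, wt]
    · intro b _ hb
      simp [Finsupp.weight_single, wt, Pi.single_eq_of_ne (Ne.symm hb)]
    · intro h
      exact absurd (Finset.mem_univ _) h⟩

theorem mon_chm {L : Type} [Field L] (y : Sig m → L) (i : ∀ κ, Fin (m κ + 1)) :
    mon y (chm (D := D) i) = ∏ κ, y ⟨κ, i κ⟩ ^ D κ := by
  rw [mon_eq]
  change eval y (monomial (∑ κ, Finsupp.single (⟨κ, i κ⟩ : Sig m) (D κ)) 1) = _
  rw [monomial_sum_one, map_prod]
  refine Finset.prod_congr rfl fun κ _ => ?_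
  rw [eval_monomial, one_mul]
  exact Finsupp.prod_single_index (pow_zero _)

theorem exists_mon_ne {L : Type} [Field L] {y : Sig m → L} (hy : Rel y) :
    ∃ μ : Mon m D, mon y μ ≠ 0 := by
  choose i hi using hy
  refine ⟨chm i, ?_⟩
  rw [mon_chm]
  exact Finset.prod_ne_zero_iff.2 fun κ _ => pow_ne_zero _ (hi κ)

theorem mem_SV {L k κG : Type} [Field L] [Field k] [Algebra k L] (G : κG → MvPolynomial (Sig m) k)
    (w : Mon m D → L) : w ∈ SV G D ↔ ∃ (y : Sig m → L) (c : L), Rel y ∧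
      (∀ j, aeval y (G j) = 0) ∧ ∀ μ, w μ = c * mon y μ := by
  constructor
  · rintro ⟨y, hy, hG, hw⟩
    obtain ⟨μ0, hμ0⟩ := exists_mon_ne (D := D) hy
    refine ⟨y, w μ0 / mon y μ0, hy, hG, fun ν => ?_⟩
    have h1 := hw ν μ0
    field_simp
    exact h1
  · rintro ⟨y, c, hy, hG, hw⟩
    refine ⟨y, hy, hG, fun μ ν => ?_⟩
    rw [hw, hw]
    ring

/-- the linear form of a multihomogeneous polynomial -/
noncomputable def lin {k : Type} [Field k] (f : MvPolynomial (Sig m) k) :
    MvPolynomial (Mon m D) k := ∑ μ : Mon m D, C (coeff μ.1 f) * X μ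

theorem lin_hom {k : Type} [Field k] (f : MvPolynomial (Sig m) k) :
    (lin (D := D) f).IsHomogeneous 1 := by
  refine IsHomogeneous.sum _ _ _ fun μ _ => ?_
  have h := (isHomogeneous_C (Mon m D) (coeff μ.1 f)).mul (isHomogeneous_X k μ)
  rwa [zero_add] at h

theorem aeval_lin {k L : Type} [Field k] [Field L] [Algebra k L] (f : MvPolynomial (Sig m) k)
    (w : Mon m D → L) : aeval w (lin f) = ∑ μ : Mon m D, algebraMap k L (coeff μ.1 f) * w μ := by
  unfold lin
  rw [map_sum]
  refine Finset.sum_congr rfl fun μ _ => ?_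
  rw [map_mul, aeval_C, aeval_X]

theorem aeval_mh {k L : Type} [Field k] [Field L] [Algebra k L] {f : MvPolynomial (Sig m) k}
    (hf : MH f D) (y : Sig m → L) :
    aeval y f = ∑ μ : Mon m D, algebraMap k L (coeff μ.1 f) * mon y μ := by
  classical
  rw [aeval_def, eval₂_eq']
  have h1 : ∑ μ : Mon m D, algebraMap k L (coeff μ.1 f) * mon y μ =
      ∑ α ∈ (Finset.univ : Finset (Mon m D)).map (Function.Embedding.subtype _),
        algebraMap k L (coeff α f) * ∏ i, y i ^ α i := by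
    rw [Finset.sum_map]
    rfl
  rw [h1]
  apply Finset.sum_subset
  · intro α hα
    rw [Finset.mem_map]
    exact ⟨⟨α, hf (mem_support_iff.1 hα)⟩, Finset.mem_univ _, rfl⟩
  · intro α _ hα
    rw [notMem_support_iff.1 hα, map_zero, zero_mul]

theorem aeval_lin_smul {k L : Type} [Field k] [Field L] [Algebra k L]
    {f : MvPolynomial (Sig m) k} (hf : MH f D) (y : Sig m → L) (c : L) {w : Mon m D → L}
    (hw : ∀ μ, w μ = c * mon y μ) : aeval w (lin f) = c * aeval y f := by
  rw [aeval_lin, aeval_mh hf, Finset.mul_sum]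
  refine Finset.sum_congr rfl fun μ _ => ?_
  rw [hw]
  ring

/-! ### the combined system of equations -/

/-- the equations of the factors and the `h j` -/
noncomputable def comb {k : Type} [Field k] {ρ : Fin r → ℕ} {c : ℕ}
    (γ : ∀ κ, Fin (ρ κ) → MvPolynomial (Fin (m κ + 1)) k) (h : Fin c → MvPolynomial (Sig m) k) :
    ((κ : Fin r) × Fin (ρ κ)) ⊕ Fin c → MvPolynomial (Sig m) k :=
  Sum.elim (fun s => rename (fun i => (⟨s.1, i⟩ : Sig m)) (γ s.1 s.2)) h

theorem mh_rename {k : Type} [Field k] {κ : Fin r} {P : MvPolynomial (Fin (m κ + 1)) k} {t : ℕ}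
    (hP : P.IsHomogeneous t) :
    MH (rename (fun i => (⟨κ, i⟩ : Sig m)) P) (Pi.single κ t) := by
  have h := wh_subst (wt m) hP (fun i => X (⟨κ, i⟩ : Sig m)) (Pi.single κ 1)
    (fun i => isWeightedHomogeneous_X k (wt m) (⟨κ, i⟩ : Sig m))
  have e : t • (Pi.single κ 1 : Fin r → ℕ) = Pi.single κ t := by
    rw [← Pi.single_smul]
    simp
  rw [e] at h
  have e2 : rename (fun i => (⟨κ, i⟩ : Sig m)) P = aeval (fun i => X (⟨κ, i⟩ : Sig m)) P := by
    have h1 := aeval_rename (R := k) (fun i => (⟨κ, i⟩ : Sig m)) (X : Sig m → MvPolynomial (Sig m) k) P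
    rw [aeval_X_left, AlgHom.id_apply] at h1
    exact h1
  rw [e2]
  exact h

theorem mh_map {k L : Type} [Field k] [Field L] [Algebra k L] {g : MvPolynomial (Sig m) k}
    {a : Fin r → ℕ} (hg : MH g a) : MH (MvPolynomial.map (algebraMap k L) g) a := by
  intro α hα
  apply hg
  intro h0
  apply hα
  rw [coeff_map, h0, map_zero]

theorem mh_comb {k : Type} [Field k] {ρ : Fin r → ℕ} {c : ℕ}
    {γ : ∀ κ, Fin (ρ κ) → MvPolynomial (Fin (m κ + 1)) k} {h : Fin c → MvPolynomial (Sig m) k}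
    (hγ : ∀ κ l, IsForm (γ κ l)) {b : Fin c → Fin r → ℕ} (hh : ∀ j, MH (h j) (b j)) :
    ∃ b' : ((κ : Fin r) × Fin (ρ κ)) ⊕ Fin c → Fin r → ℕ, ∀ j, MH (comb γ h j) (b' j) := by
  choose t _ ht using hγ
  refine ⟨Sum.elim (fun s => Pi.single s.1 (t s.1 s.2)) b, ?_⟩
  rintro (s | j)
  · exact mh_rename (ht s.1 s.2)
  · exact hh j

theorem comb_zero {k L : Type} [Field k] [Field L] [Algebra k L] {ρ : Fin r → ℕ} {c : ℕ}
    {γ : ∀ κ, Fin (ρ κ) → MvPolynomial (Fin (m κ + 1)) k} {h : Fin c → MvPolynomial (Sig m) k}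
    {Y : ∀ κ, Set (Fin (m κ + 1) → L)} (hY : ∀ κ, Y κ = {x | ∀ l, aeval x (γ κ l) = 0})
    (y : Sig m → L) : (∀ j, aeval y (comb γ h j) = 0) ↔
      (∀ κ, (fun i => y ⟨κ, i⟩) ∈ Y κ) ∧ ∀ j, aeval y (h j) = 0 := by
  constructor
  · intro h1
    refine ⟨fun κ => ?_, fun j => h1 (Sum.inr j)⟩
    rw [hY]
    intro l
    have h2 := h1 (Sum.inl ⟨κ, l⟩)
    rw [comb, Sum.elim_inl, aeval_rename] at h2
    exact h2
  · rintro ⟨h1, h2⟩ (⟨κ, l⟩ | j)
    · rw [comb, Sum.elim_inl, aeval_rename]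
      have h3 := h1 κ
      rw [hY] at h3
      exact h3 l
    · exact h2 j

/-! ### change of the base field of a closed cone -/

theorem coneOver_base {k L α : Type} [Field k] [Field L] [Algebra k L] {Y : Set (α → L)}
    (h : IsConeOver k Y) : IsConeOver L Y := by
  obtain ⟨⟨J, hJ⟩, hc⟩ := h
  refine ⟨⟨J.map (MvPolynomial.map (algebraMap k L)), ?_⟩, hc⟩
  ext w
  rw [hJ, mem_zeroLocus_iff, mem_zeroLocus_iff]
  constructor
  · intro hw f hf
    have h1 : J.map (MvPolynomial.map (algebraMap k L)) ≤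
        RingHom.ker (aeval w : MvPolynomial α L →ₐ[L] L) := by
      rw [Ideal.map_le_iff_le_comap]
      intro g hg
      rw [Ideal.mem_comap, RingHom.mem_ker]
      rw [aeval_eq_eval]
      exact (eval_map_alg _ _).trans (hw g hg)
    exact h1 hf
  · intro hw f hf
    have h1 := hw _ (Ideal.mem_map_of_mem (MvPolynomial.map (algebraMap k L)) hf)
    rw [aeval_eq_eval] at h1
    exact (eval_map_alg _ _).symm.trans h1

/-- **The lower bound for the dimension.** -/
theorem dimGE_SV (hE : S_EXC) {k L : Type} [Field k] [Field L] [Algebra k L] [IsAlgClosed L]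
    {d ρ : Fin r → ℕ} {c e : ℕ} {Y : ∀ κ, Set (Fin (m κ + 1) → L)}
    (hYc : ∀ κ, IsConeOver k (Y κ)) (hYd : ∀ κ, DimGE (Y κ) (d κ))
    {γ : ∀ κ, Fin (ρ κ) → MvPolynomial (Fin (m κ + 1)) k}
    (hY : ∀ κ, Y κ = {x | ∀ l, aeval x (γ κ l) = 0}) {h : Fin c → MvPolynomial (Sig m) k}
    {b : Fin c → Fin r → ℕ} (hh : ∀ j, MH (h j) (b j)) (τ : Fin c ⊕ Fin e → Fin r)
    (hb : ∀ j, 0 < b j (τ (Sum.inl j))) (hD : ∀ j, 0 < D (τ (Sum.inr j)))
    (hcard : ∀ κ, Nat.card {j // τ j = κ} ≤ d κ) :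
    DimGE (SV (L := L) (comb γ h) D) e := by
  intro q hq
  choose t ht hqt using hq
  obtain ⟨y, hy, hyY, hyF⟩ := hE L m d Y (fun κ => coneOver_base (hYc κ)) hYd (Fin c ⊕ Fin e)
    (Sum.elim (fun j => MvPolynomial.map (algebraMap k L) (h j)) (fun j => pull (q j)))
    (Sum.elim b (fun j => t j • D)) (by
      rintro (j | j)
      · exact mh_map (hh j)
      · exact mh_pull (hqt j)) τ (by
      rintro (j | j)
      · exact hb j
      · change 0 < (t j • D) (τ (Sum.inr j))
        rw [Pi.smul_apply, smul_eq_mul]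
        exact Nat.mul_pos (ht j) (hD j)) hcard
  refine ⟨mon y, (mem_SV _ _).2 ⟨y, 1, hy, (comb_zero hY y).2 ⟨hyY, fun j => ?_⟩,
    fun μ => (one_mul _).symm⟩, ?_, fun j => ?_⟩
  · have h1 := hyF (Sum.inl j)
    rw [Sum.elim_inl, eval_map_alg] at h1
    exact h1
  · intro h0
    obtain ⟨μ, hμ⟩ := exists_mon_ne (D := D) hy
    exact hμ (congrFun h0 μ)
  · have h1 := hyF (Sum.inr j)
    rw [Sum.elim_inr, eval_pull'] at h1
    exact h1

end Pool.Agent.L7h80.MG
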