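import Mathlib
import Pool.Agent.L7h80.MG.Base

/-!
# Project MG: approximation of the cone over the image under the monomials of a multidegree
-/

set_option autoImplicit false

namespace Pool.Agent.L7h80.MG

open MvPolynomial Pool.Agent.Y129.TA Pool.Agent.Y129.TB Pool.Agent.R388.TP
open Pool.Agent.W476.TP (Sig wt MH Rel)

variable {r : ℕ} {m D : Fin r → ℕ}

variable {p : ℕ} [hp : Fact p.Prime] {C F K E : Type} [Field C] [Field F] [CharP F p] [Field K]
  [Field E] [Algebra K C] [Algebra E F]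

omit hp [CharP F p] in
theorem sharp_mon (T : TiltPair p C F) (y : Sig m → F) (μ : Mon m D) :
    T.sharp (mon y μ) = mon (fun i => T.sharp (y i)) μ := by
  unfold mon
  rw [map_prod]
  exact Finset.prod_congr rfl fun i _ => map_pow _ _ _

theorem normalize (T : TiltPair p C F) {y : Sig m → F} (hy : Rel y) :
    ∃ (c : Fin r → F) (i : ∀ κ, Fin (m κ + 1)), (∀ κ, c κ ≠ 0) ∧
      (∀ s : Sig m, T.absF (c s.1 * y s) ≤ 1) ∧ ∀ κ, T.absF (c κ * y ⟨κ, i κ⟩) = 1 := by
  have h1 : ∀ κ, ∃ a : F, a ≠ 0 ∧ (∀ i, T.absF (a * y ⟨κ, i⟩) ≤ 1) ∧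
      ∃ i, T.absF (a * y ⟨κ, i⟩) = 1 := by
    intro κ
    apply exists_normal T (w := fun i => y ⟨κ, i⟩)
    intro h0
    obtain ⟨i, hi⟩ := hy κ
    exact hi (congrFun h0 i)
  choose c hc hc1 i hi using h1
  exact ⟨c, i, hc, fun s => hc1 s.1 s.2, hi⟩

omit hp [CharP F p] in
theorem abs_mon_le (T : TiltPair p C F) {y : Sig m → F} (hy : ∀ s, T.absF (y s) ≤ 1)
    (μ : Mon m D) : T.absF (mon y μ) ≤ 1 := by
  unfold mon
  rw [map_prod]
  refine Finset.prod_le_one (fun _ _ => T.absF.nonneg _) fun s _ => ?_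
  rw [map_pow]
  exact pow_le_one₀ (T.absF.nonneg _) (hy s)

variable [IsAlgClosed C] [IsAlgClosed F]

set_option maxHeartbeats 1000000 in
theorem approximable_SV (hEL : S_ELIM) (hEX : S_EXC) (hM : S_MAPP) (T : Tilting p C F)
    (B : BaseField T K E) {d ρ : Fin r → ℕ} {c e : ℕ} {X : ∀ κ, Set (Fin (m κ + 1) → C)}
    {γ : ∀ κ, Fin (ρ κ) → MvPolynomial (Fin (m κ + 1)) K} (hγ : ∀ κ l, IsForm (γ κ l))
    (hX : ∀ κ, X κ = {x | ∀ l, aeval x (γ κ l) = 0})
    (hXa : ∀ κ, Approximable T.toTiltPair K E (X κ) (d κ))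
    (g : Fin c → MvPolynomial (Sig m) K) (a : Fin c → Fin r → ℕ) (hg : ∀ j, MH (g j) (a j))
    (τ : Fin c ⊕ Fin e → Fin r) (ha : ∀ j, 0 < a j (τ (Sum.inl j)))
    (hD : ∀ j, 0 < D (τ (Sum.inr j))) (hcard : ∀ κ, Nat.card {j // τ j = κ} ≤ d κ)
    (hle : DimLEOver K (SV (L := C) (comb γ g) D) e) :
    Approximable T.toTiltPair K E (SV (L := C) (comb γ g) D) e := by
  classical
  have : Infinite F := IsAlgClosed.instInfinite
  intro r' P DP hPD hPX ε hε
  obtain ⟨q, hq, hq0⟩ := hle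
  let G' : ((κ : Fin r) × Fin (ρ κ)) ⊕ Fin c → MvPolynomial (Sig m) C := fun s =>
    MvPolynomial.map (algebraMap K C) (comb γ g s)
  let q' : Fin (e + 1) → MvPolynomial (Mon m D) C := fun j => MvPolynomial.map (algebraMap K C) (q j)
  let P' : Fin r' → MvPolynomial (Mon m D) C := fun j => MvPolynomial.map (algebraMap K C) (P j)
  have hG'e : ∀ v s, eval v (G' s) = aeval v (comb γ g s) := fun v s => eval_map_alg _ _
  let Pj : (∀ κ, Fin (m κ + 1)) → MvPolynomial (Sig m) C := fun i => ∏ κ, MvPolynomial.X ⟨κ, i κ⟩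
  have hPi : ∀ v i, eval v (Pj i) = ∏ κ, v ⟨κ, i κ⟩ := by
    intro v i
    simp only [Pj, map_prod, eval_X]
  have hrel : ∀ v i, eval v (Pj i) ≠ 0 → Rel v := by
    intro v i h0 κ
    rw [hPi] at h0
    exact ⟨i κ, fun h => h0 (Finset.prod_eq_zero (Finset.mem_univ κ) h)⟩
  have hmem : ∀ v, Rel v → (∀ s, eval v (G' s) = 0) → mon v ∈ SV (L := C) (comb γ g) D := by
    intro v hv h0
    refine (mem_SV _ _).2 ⟨v, 1, hv, fun s => ?_, fun μ => (one_mul _).symm⟩
    rw [← hG'e]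
    exact h0 s
  -- the forms `q j`
  have s2 : ∀ i : (∀ κ, Fin (m κ + 1)), ∃ δ : ℝ, 0 < δ ∧ ∀ v : Sig m → C, (∀ i, T.absK (v i) ≤ 1) →
      (∀ k, T.absK (eval v (Sum.elim G' (fun j => pull (q' j)) k)) ≤ δ) →
      T.absK (eval v (Pj i)) ≤ 1 / 2 := by
    intro i
    refine small T.ultraK _ _ (fun v hv => ?_) (by norm_num)
    by_contra h0
    have hv1 := hrel v i h0
    have h1 := hq0 (mon v) (hmem v hv1 fun s => hv (Sum.inl s)) fun j => by
      have h2 := hv (Sum.inr j)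
      rw [Sum.elim_inr, map_pull] at h2
      exact h2
    obtain ⟨μ, hμ⟩ := exists_mon_ne (D := D) hv1
    exact hμ (congrFun h1 μ)
  choose δ₂ hδ₂ hs2 using s2
  obtain ⟨δb, hδb, hδb'⟩ := exists_pos_le δ₂ hδ₂
  -- the polynomials `P k`
  have s3 : ∀ ki : Fin r' × (∀ κ, Fin (m κ + 1)), ∃ δ : ℝ, 0 < δ ∧ ∀ v : Sig m → C,
      (∀ i, T.absK (v i) ≤ 1) → (∀ k, T.absK (eval v (G' k)) ≤ δ) →
      T.absK (eval v (pull (P' ki.1) * Pj ki.2)) ≤ ε := by
    rintro ⟨k, i⟩
    refine small T.ultraK _ _ (fun v hv => ?_) hε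
    simp only
    rw [map_mul]
    by_cases h0 : eval v (Pj i) = 0
    · rw [h0, mul_zero]
    · have h1 := hPX k (mon v) (hmem v (hrel v i h0) hv)
      rw [map_pull, h1, zero_mul]
  choose δ₃ hδ₃ hs3 using s3
  obtain ⟨δc, hδc, hδc'⟩ := exists_pos_le δ₃ hδ₃
  set δ : ℝ := min δb δc with hδ
  have hδ0 : 0 < δ := lt_min hδb hδc
  -- the approximations
  choose t ht hγt using hγ
  choose Y hYc hYge hYle hYt using fun κ => hXa κ (ρ κ) (γ κ) (t κ) (hγt κ)
    (fun l x hx => by rw [hX] at hx; exact hx l) δ hδ0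
  choose M h hh hha using fun j => hM p C F K E T B m (g j) (a j) (hg j) δ hδ0
  choose ρY γY hγY hYeq using fun κ => exists_gens (hYc κ) (dimGE_nonempty (hYge κ))
  have a2 : ∀ j : Fin (e + 1), ∃ D', 0 < D' ∧ ∃ g : MvPolynomial (Mon m D) E, g.IsHomogeneous D' ∧
      ∀ t : Mon m D → F, (∀ i, T.absF (t i) ≤ 1) → aeval t g = 0 →
        T.absK (aeval (fun i => T.sharp (t i)) (q j)) ≤ δ := by
    intro j
    obtain ⟨D', hD', hqj⟩ := hq j
    exact approx T B hD' hqj hδ0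
  choose Dg hDg gq hgq hgqa using a2
  obtain ⟨b', hb'⟩ := mh_comb hγY hh
  -- the points
  have key : ∀ w ∈ SV (L := F) (comb γY h) D, ∃ (y : Sig m → F) (c : F) (i : ∀ κ, Fin (m κ + 1)),
      (∀ s, T.absF (y s) ≤ 1) ∧ (∀ κ, T.absF (y ⟨κ, i κ⟩) = 1) ∧
      (∀ s, T.absK (eval (fun s => T.sharp (y s)) (G' s)) ≤ δ) ∧ ∀ μ, w μ = c * mon y μ := by
    intro w hw
    obtain ⟨y0, c0, hy0, hG0, hw0⟩ := (mem_SV _ _).1 hw
    obtain ⟨hYy, hhy⟩ := (comb_zero hYeq y0).1 hG0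
    obtain ⟨cc, i, hcc, hn1, hn2⟩ := normalize T.toTiltPair hy0
    have hprod : ∏ κ, cc κ ^ D κ ≠ 0 := Finset.prod_ne_zero_iff.2 fun κ _ => pow_ne_zero _ (hcc κ)
    refine ⟨fun s => cc s.1 * y0 s, c0 / ∏ κ, cc κ ^ D κ, i, hn1, hn2, ?_, fun μ => ?_⟩
    · rintro (⟨κ, l⟩ | j)
      · rw [hG'e, comb, Sum.elim_inl, aeval_rename]
        have h1 : (fun i => cc κ * y0 ⟨κ, i⟩) ∈ Y κ := by
          have h2 := (hYc κ).2 (cc κ) _ (hYy κ)
          exact h2
        have h3 := hYt κ _ h1 l 1 (fun i => hn1 ⟨κ, i⟩)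
        rw [one_pow, mul_one] at h3
        exact h3
      · rw [hG'e]
        apply hha j (fun s => cc s.1 * y0 s) hn1
        rw [aeval_scale (hh j), hhy j, mul_zero]
    · rw [mon_scale, hw0]
      field_simp
  have hone : ∀ (y : Sig m → F) (i : ∀ κ, Fin (m κ + 1)), (∀ κ, T.absF (y ⟨κ, i κ⟩) = 1) →
      T.absK (eval (fun s => T.sharp (y s)) (Pj i)) = 1 := by
    intro y i hy
    rw [hPi, map_prod]
    refine Finset.prod_eq_one fun κ _ => ?_
    rw [T.abs_sharp, hy]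
  refine ⟨SV (L := F) (comb γY h) D, hEL E F m D _ (comb γY h) b' hb',
    dimGE_SV hEX hYc hYge hYeq hh τ (fun j => ?_) hD hcard, ?_, ?_⟩
  · rw [Pi.smul_apply, smul_eq_mul]
    exact Nat.mul_pos (pow_pos hp.out.pos _) (ha j)
  · -- the upper bound for the dimension
    refine ⟨fun j => MvPolynomial.map (algebraMap E F) (gq j),
      fun j => form_map ⟨Dg j, hDg j, hgq j⟩, ?_⟩
    intro w hw hgw
    simp only [eval_map_alg] at hgw
    by_contra hw0
    obtain ⟨y, c, i, hy1, hy2, hyG, hyw⟩ := key w hw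
    have hc : c ≠ 0 := by
      rintro rfl
      exact hw0 (funext fun μ => by rw [hyw, zero_mul]; rfl)
    have hweq : w = fun μ => c * mon y μ := funext hyw
    have h3 := hs2 i (fun s => T.sharp (y s)) (fun s => by rw [T.abs_sharp]; exact hy1 s) (by
      rintro (s | j)
      · exact (hyG s).trans ((min_le_left _ _).trans (hδb' i))
      · rw [Sum.elim_inr, map_pull]
        have h4 := hgw j
        rw [hweq, aeval_smul (hgq j)] at h4
        have h5 := (mul_eq_zero.1 h4).resolve_left (pow_ne_zero _ hc)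
        have h6 := hgqa j (mon y) (fun μ => abs_mon_le T.toTiltPair hy1 μ) h5
        have h7 : (fun μ => T.sharp (mon y μ)) = mon (D := D) (fun s => T.sharp (y s)) :=
          funext fun μ => sharp_mon T.toTiltPair y μ
        rw [h7] at h6
        exact h6.trans ((min_le_left _ _).trans (hδb' i)))
    rw [hone y i hy2] at h3
    norm_num at h3
  · -- the tube
    intro w hw k Bd hB
    obtain ⟨y, c, i, hy1, hy2, hyG, hyw⟩ := key w hw
    have h3 := hs3 (k, i) (fun s => T.sharp (y s)) (fun s => by rw [T.abs_sharp]; exact hy1 s)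
      (fun s => (hyG s).trans ((min_le_right _ _).trans (hδc' (k, i))))
    simp only at h3
    rw [map_mul, map_mul, hone y i hy2, mul_one, map_pull] at h3
    have h7 : (fun μ => T.sharp (w μ)) =
        fun μ => T.sharp c * mon (D := D) (fun s => T.sharp (y s)) μ := by
      funext μ
      rw [hyw, map_mul, sharp_mon]
    have h8 : T.absF c ≤ Bd := by
      have h9 := hB (chm i)
      rw [hyw, map_mul, mon_chm, map_prod] at h9
      have h10 : ∏ κ, T.absF (y ⟨κ, i κ⟩ ^ D κ) = 1 := by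
        refine Finset.prod_eq_one fun κ _ => ?_
        rw [map_pow, hy2, one_pow]
      rw [h10, mul_one] at h9
      exact h9
    change T.absK (aeval (fun μ => T.sharp (w μ)) (P k)) ≤ ε * Bd ^ DP k
    rw [h7, aeval_smul (hPD k), map_mul, map_pow, T.abs_sharp, mul_comm]
    exact mul_le_mul h3 (pow_le_pow_left₀ (T.absF.nonneg _) h8 _)
      (pow_nonneg (T.absF.nonneg _) _) hε.le

end Pool.Agent.L7h80.MG
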