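import Pool.Agent.L7h80.MG.Base
import Pool.Agent.W338.TP.Key
import Pool.Agent.W249.TP.NST

/-!
# Project MG: common zeros of multihomogeneous forms on a product of closed cones
-/

set_option autoImplicit false

namespace Pool.Agent.L7h80.MG

open MvPolynomial Pool.Agent.Y129.TA Pool.Agent.Y129.TB Pool.Agent.R388.TP
open Pool.Agent.W476.TP (Sig wt wt2 MH Rel MonicMH rename_hom)

theorem key1 (L : Type) [Field L] [IsAlgClosed L] {r : ℕ} (hr : 0 < r) (m : Fin r → ℕ)
    (J : Type) [Fintype J] (F : J → MvPolynomial (Sig m) L) (δ : J → Fin r → ℕ)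
    (hF : ∀ j, MH (F j) (δ j)) (κ : Fin r)
    (hl : ∀ l : Fin (m κ + 1) → L, ∃ y : Sig m → L, Rel y ∧ (∀ j, eval y (F j) = 0) ∧
      ∑ i, l i * y ⟨κ, i⟩ = 0) (F₀ : MvPolynomial (Sig m) L) (δ₀ : Fin r → ℕ) (hF₀ : MH F₀ δ₀)
    (hδ : 0 < δ₀ κ) :
    ∃ y : Sig m → L, Rel y ∧ (∀ j, eval y (F j) = 0) ∧ eval y F₀ = 0 := by
  have hD : (fun _ : Fin r => 1) ≠ (0 : Fin r → ℕ) := by
    intro h
    exact one_ne_zero (congrFun h ⟨0, hr⟩)
  have hG : ∀ i : Fin (0 + 1), MonicMH (m := m) (K := L) (fun _ => 1)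
      ((fun _ => Polynomial.X : Fin (0 + 1) → Polynomial (MvPolynomial (Sig m) L)) i)
      ((fun _ => 1 : Fin (0 + 1) → ℕ) i) := by
    intro i
    refine ⟨one_pos, Polynomial.monic_X, Polynomial.natDegree_X, ?_⟩
    intro l hl
    change MH (Polynomial.X.coeff l) _
    rcases Nat.lt_or_ge l 1 with h | h
    · have h0 : l = 0 := by omega
      subst h0
      rw [Polynomial.coeff_X_zero]
      exact isWeightedHomogeneous_zero _ _ _
    · have h0 : l = 1 := le_antisymm hl h
      subst h0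
      rw [Polynomial.coeff_X_one, Nat.sub_self, zero_smul]
      exact isWeightedHomogeneous_one _ _
  obtain ⟨y, z, h1, _, h3, h4⟩ := Pool.Agent.W338.TP.t_KEY Pool.Agent.W476.TP.t_NST L (n := 0) m
    (fun _ => 1) hD (fun _ => Polynomial.X) (fun _ => 1) hG J (fun j => rename Sum.inl (F j)) δ
    (fun j => rename_hom (hF j) _ _) κ (by
      intro l
      obtain ⟨y, h1, h2, h3⟩ := hl l
      refine ⟨y, 0, h1, ?_, ?_, h3⟩
      · intro i
        simp [Pool.Agent.W476.TP.ev]
      · intro j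
        rw [eval_rename, Sum.elim_comp_inl]
        exact h2 j) (rename Sum.inl F₀) δ₀ (rename_hom hF₀ _ _) hδ
  refine ⟨y, h1, ?_, ?_⟩
  · intro j
    have h5 := h3 j
    rwa [eval_rename, Sum.elim_comp_inl] at h5
  · rwa [eval_rename, Sum.elim_comp_inl] at h4

theorem mh_lin {L : Type} [Field L] {r : ℕ} {m : Fin r → ℕ} (κ : Fin r)
    (l : Fin (m κ + 1) → L) :
    MH (∑ i, C (l i) * X (⟨κ, i⟩ : Sig m)) (Pi.single κ 1) := by
  refine IsWeightedHomogeneous.sum _ _ _ fun i _ => ?_
  exact (isWeightedHomogeneous_X L (wt m) (⟨κ, i⟩ : Sig m)).C_mul (l i)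

theorem eval_lin1 {L : Type} [Field L] {r : ℕ} {m : Fin r → ℕ} (κ : Fin r)
    (l : Fin (m κ + 1) → L) (y : Sig m → L) :
    eval y (∑ i, C (l i) * X (⟨κ, i⟩ : Sig m)) = ∑ i, l i * y ⟨κ, i⟩ := by
  rw [map_sum]
  refine Finset.sum_congr rfl fun i _ => ?_
  rw [map_mul, eval_C, eval_X]

theorem base1 {L : Type} [Field L] {r : ℕ} (m : Fin r → ℕ) {κ κ' : Fin r}
    (l : Fin (m κ + 1) → L) (h : κ = κ') :
    ∃ q : MvPolynomial (Fin (m κ' + 1)) L, IsForm q ∧ ∀ y : Sig m → L,
      eval (fun i => y ⟨κ', i⟩) q = ∑ i, l i * y ⟨κ, i⟩ := by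
  subst h
  refine ⟨∑ i, C (l i) * X i, ⟨1, one_pos, ?_⟩, ?_⟩
  · refine IsHomogeneous.sum _ _ _ fun i _ => ?_
    have := (isHomogeneous_C (Fin (m κ + 1)) (l i)).mul (isHomogeneous_X L i)
    rwa [zero_add] at this
  · intro y
    rw [map_sum]
    refine Finset.sum_congr rfl fun i _ => ?_
    rw [map_mul, eval_C, eval_X]

theorem s_EXC : S_EXC := by
  classical
  intro L _ _ r m d Y hYc hYd J _ F δ hF τ hτ hcard
  rcases Nat.eq_zero_or_pos r with hr | hr
  · subst hr
    exact ⟨fun s => s.1.elim0, fun κ => κ.elim0, fun κ => κ.elim0, fun j => (τ j).elim0⟩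
  have hinf : Infinite L := IsAlgClosed.instInfinite
  have hne : ∀ κ, (Y κ).Nonempty := by
    intro κ
    obtain ⟨y, hy, _⟩ := hYd κ (fun _ => 0) (fun _ => isForm_zero)
    exact ⟨y, hy⟩
  choose ρ γ hγ hY using fun κ => exists_gens (hYc κ) (hne κ)
  choose t _ ht using hγ
  have key : ∀ A : Finset J, ∀ l : (j : J) → Fin (m (τ j) + 1) → L,
      ∃ y : Sig m → L, Rel y ∧ (∀ κ, (fun i => y ⟨κ, i⟩) ∈ Y κ) ∧
        (∀ j ∈ A, eval y (F j) = 0) ∧ ∀ j, j ∉ A → ∑ i, l j i * y ⟨τ j, i⟩ = 0 := by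
    intro A
    induction A using Finset.induction_on with
    | empty =>
      intro l
      have h1 : ∀ κ : Fin r, ∃ v ∈ Y κ, v ≠ 0 ∧ ∀ (j : J) (h : τ j = κ),
          eval v (base1 m (l j) h).choose = 0 := by
        intro κ
        obtain ⟨v, hv, hv0, hvq⟩ := dimGE_fintype (hYd κ) (κ := {j : J // τ j = κ})
          (by rw [← Nat.card_eq_fintype_card]; exact hcard κ)
          (fun j => (base1 m (l j.1) j.2).choose) (fun j => (base1 m (l j.1) j.2).choose_spec.1)
        exact ⟨v, hv, hv0, fun j h => hvq ⟨j, h⟩⟩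
      choose v hv hv0 hvq using h1
      refine ⟨fun s => v s.1 s.2, ?_, fun κ => hv κ, ?_, ?_⟩
      · intro κ
        by_contra hcon
        push Not at hcon
        exact hv0 κ (funext fun i => hcon i)
      · intro j hj
        exact absurd hj (Finset.notMem_empty j)
      · intro j _
        have h2 := (base1 m (l j) rfl).choose_spec.2 (fun s : Sig m => v s.1 s.2)
        rw [← h2]
        exact hvq (τ j) j rfl
    | insert j0 A hj0 ih =>
      intro l
      let F' : ((κ : Fin r) × Fin (ρ κ)) ⊕ {j : J // j ≠ j0} → MvPolynomial (Sig m) L :=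
        Sum.elim (fun s => rename (fun i => (⟨s.1, i⟩ : Sig m)) (γ s.1 s.2))
          (fun j => if j.1 ∈ A then F j.1 else ∑ i, C (l j.1 i) * X (⟨τ j.1, i⟩ : Sig m))
      let δ' : ((κ : Fin r) × Fin (ρ κ)) ⊕ {j : J // j ≠ j0} → Fin r → ℕ :=
        Sum.elim (fun s => Pi.single s.1 (t s.1 s.2))
          (fun j => if j.1 ∈ A then δ j.1 else Pi.single (τ j.1) 1)
      have hF' : ∀ j, MH (F' j) (δ' j) := by
        rintro (s | j)
        · exact mh_rename (ht s.1 s.2)
        · by_cases h : j.1 ∈ A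
          · simp only [F', δ', Sum.elim_inr, if_pos h]
            exact hF j.1
          · simp only [F', δ', Sum.elim_inr, if_neg h]
            exact mh_lin _ _
      have hF1 : ∀ (s : (κ : Fin r) × Fin (ρ κ)) (y : Sig m → L),
          eval y (F' (Sum.inl s)) = eval (fun i => y ⟨s.1, i⟩) (γ s.1 s.2) := by
        intro s y
        simp only [F', Sum.elim_inl]
        rw [eval_rename]
        rfl
      obtain ⟨y, h1, h3, h4⟩ := key1 L hr m _ F' δ' hF' (τ j0)
        (by
          intro l0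
          obtain ⟨y, h1, h2, h3, h4⟩ := ih (Function.update l j0 l0)
          refine ⟨y, h1, ?_, ?_⟩
          · rintro (s | j)
            · rw [hF1]
              have h5 := h2 s.1
              rw [hY] at h5
              have h6 := h5 s.2
              rwa [aeval_eq_eval] at h6
            · by_cases h : j.1 ∈ A
              · simp only [F', Sum.elim_inr, if_pos h]
                exact h3 j.1 h
              · simp only [F', Sum.elim_inr, if_neg h]
                rw [eval_lin1]
                have h5 := h4 j.1 h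
                rwa [Function.update_of_ne j.2] at h5
          · have h5 := h4 j0 hj0
            rwa [Function.update_self] at h5)
        (F j0) (δ j0) (hF j0) (hτ j0)
      refine ⟨y, h1, ?_, ?_, ?_⟩
      · intro κ
        rw [hY]
        intro s
        rw [aeval_eq_eval]
        have h5 := h3 (Sum.inl ⟨κ, s⟩)
        rwa [hF1] at h5
      · intro j hj
        by_cases h : j = j0
        · rw [h]; exact h4
        · have hjA : j ∈ A := Finset.mem_of_mem_insert_of_ne hj h
          have h5 := h3 (Sum.inr ⟨j, h⟩)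
          simp only [F', Sum.elim_inr, if_pos hjA] at h5
          exact h5
      · intro j hj
        rw [Finset.mem_insert, not_or] at hj
        have h5 := h3 (Sum.inr ⟨j, hj.1⟩)
        simp only [F', Sum.elim_inr, if_neg hj.2] at h5
        rwa [eval_lin1] at h5
  obtain ⟨y, h1, h2, h3, _⟩ := key Finset.univ (fun _ _ => 0)
  exact ⟨y, h1, h2, fun j => h3 j (Finset.mem_univ j)⟩

end Pool.Agent.L7h80.MG
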