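import Mathlib
import Pool.Agent.L7h80.MG.Apx

/-!
# Project MG: Q1 for the images of multigraded complete intersections
-/

set_option autoImplicit false

namespace Pool.Agent.L7h80.MG

open MvPolynomial Pool.Agent.Y129.TA Pool.Agent.Y129.TB Pool.Agent.R388.TP Pool.Agent.N150.JN
open Pool.Agent.W476.TP (Sig wt MH Rel)

/-- The cone over the image under `f` of the set of the common zeros of the `g j` in the product of
the closed subsets `X κ` of projective spaces. -/
def mgImage {C K : Type} [Field C] [Field K] [Algebra K C] {r c n : ℕ} {m : Fin r → ℕ}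
    (X : ∀ κ, Set (Fin (m κ + 1) → C)) (g : Fin c → MvPolynomial (Sig m) K)
    (f : Fin (n + 1) → MvPolynomial (Sig m) K) : Set (Fin (n + 1) → C) :=
  {x | ∃ (t : C) (y : Sig m → C), Rel y ∧ (∀ κ, (fun i => y ⟨κ, i⟩) ∈ X κ) ∧
    (∀ j, aeval y (g j) = 0) ∧ ∀ i, x i = t * aeval y (f i)}

variable {r : ℕ} {m D : Fin r → ℕ}

variable {p : ℕ} [hp : Fact p.Prime] {C F K E : Type} [Field C] [Field F] [CharP F p] [Field K]
  [Field E] [Algebra K C] [Algebra E F] [IsAlgClosed C] [IsAlgClosed F]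

theorem main (hEL : S_ELIM) (hEX : S_EXC) (hM : S_MAPP) (T : Tilting p C F) (B : BaseField T K E)
    {d : Fin r → ℕ} {c e n : ℕ} {X : ∀ κ, Set (Fin (m κ + 1) → C)}
    (hX : ∀ κ, Q1 T K E (X κ) (d κ)) (g : Fin c → MvPolynomial (Sig m) K) (a : Fin c → Fin r → ℕ)
    (hg : ∀ j, MH (g j) (a j)) (f : Fin (n + 1) → MvPolynomial (Sig m) K) (hf : ∀ i, MH (f i) D)
    (hf0 : ∀ y : Sig m → C, Rel y → (∀ κ, (fun i => y ⟨κ, i⟩) ∈ X κ) → (∀ j, aeval y (g j) = 0) →
      ∃ i, aeval y (f i) ≠ 0)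
    (τ : Fin c ⊕ Fin e → Fin r) (ha : ∀ j, 0 < a j (τ (Sum.inl j)))
    (hD : ∀ j, 0 < D (τ (Sum.inr j))) (hcard : ∀ κ, Nat.card {j // τ j = κ} ≤ d κ)
    (hle : DimLEOver K (mgImage X g f) e) : Q1 T K E (mgImage X g f) e := by
  classical
  have hinf : Infinite C := IsAlgClosed.instInfinite
  have hinfK : Infinite K := infinite_base T.toTiltPair K
  choose ρ γ hγ hXeq using fun κ =>
    exists_gens (hX κ).closed (nonempty_of_approximable T.toTiltPair (hX κ).approx)
  set Z : Set (Mon m D → C) := SV (L := C) (comb γ g) D with hZ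
  obtain ⟨b', hb'⟩ := mh_comb hγ hg
  have hZc : IsConeOver K Z := hEL K C m D _ (comb γ g) b' hb'
  have hZge : DimGE Z e :=
    dimGE_SV hEX (fun κ => (hX κ).closed) (fun κ => (hX κ).ge) hXeq hg τ ha hD hcard
  -- the points of `Z`
  have hpt : ∀ z ∈ Z, ∃ (y : Sig m → C) (t : C), Rel y ∧ (∀ κ, (fun i => y ⟨κ, i⟩) ∈ X κ) ∧
      (∀ j, aeval y (g j) = 0) ∧ (∀ μ, z μ = t * mon y μ) ∧
      ∀ i, aeval z (lin (D := D) (f i)) = t * aeval y (f i) := by
    intro z hz
    obtain ⟨y, t, hy, hG, hw⟩ := (mem_SV _ _).1 hz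
    obtain ⟨h1, h2⟩ := (comb_zero hXeq y).1 hG
    exact ⟨y, t, hy, h1, h2, hw, fun i => aeval_lin_smul (hf i) y t hw⟩
  have hzero : ∀ z ∈ Z, (∀ i, aeval z (lin (D := D) (f i)) = 0) → z = 0 := by
    intro z hz h0
    obtain ⟨y, t, hy, h1, h2, hw, h3⟩ := hpt z hz
    obtain ⟨i, hi⟩ := hf0 y hy h1 h2
    have h4 := h0 i
    rw [h3] at h4
    have h5 := (mul_eq_zero.1 h4).resolve_right hi
    funext μ
    rw [hw, h5, zero_mul]
    rfl
  have hZle : DimLEOver K Z e := by
    obtain ⟨q, hq, hq0⟩ := hle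
    refine ⟨fun j => aeval (fun i => lin (D := D) (f i)) (q j), fun j => ?_, fun z hz h0 => ?_⟩
    · obtain ⟨t, ht, h1⟩ := hq j
      refine ⟨t, ht, ?_⟩
      have h2 := wh_subst (1 : Mon m D → ℕ) h1 (fun i => lin (D := D) (f i)) 1
        (fun i => lin_hom (f i))
      rw [smul_eq_mul, mul_one] at h2
      exact h2
    · apply hzero z hz
      obtain ⟨y, t, hy, h1, h2, hw, h3⟩ := hpt z hz
      have h4 := hq0 (fun i => aeval z (lin (D := D) (f i))) ⟨t, y, hy, h1, h2, h3⟩ fun j => by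
        have h5 := h0 j
        rw [← AlgHom.comp_apply] at h5
        have h6 : (aeval z : MvPolynomial (Mon m D) K →ₐ[K] C).comp
            (aeval fun i => lin (D := D) (f i)) = aeval fun i => aeval z (lin (D := D) (f i)) := by
          apply algHom_ext
          intro i
          rw [AlgHom.comp_apply, aeval_X, aeval_X]
        rw [h6] at h5
        exact h5
      exact fun i => congrFun h4 i
  have hZa : Approximable T.toTiltPair K E Z e :=
    approximable_SV hEL hEX hM T B hγ hXeq (fun κ => (hX κ).approx) g a hg τ ha hD hcard hZle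
  -- the index set
  obtain ⟨M, hMc⟩ : ∃ M, Fintype.card (Mon m D) = M + 1 := by
    have h1 : 0 < Fintype.card (Mon m D) := Fintype.card_pos_iff.2 ⟨chm fun _ => 0⟩
    exact ⟨Fintype.card (Mon m D) - 1, by omega⟩
  let e₀ : Fin (M + 1) ≃ Mon m D := (Fintype.equivFinOfCardEq hMc).symm
  set Z' : Set (Fin (M + 1) → C) := {w | (fun s => w (e₀.symm s)) ∈ Z} with hZ'
  have hQ : Q1 T K E Z' e := by
    refine ⟨cone_equiv e₀ hZc, dimGE_equiv e₀ hZge, ?_, approximable_equiv _ e₀ hZa⟩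
    obtain ⟨q, hq, hq0⟩ := hZle
    refine ⟨fun j => rename e₀.symm (q j), fun j => ?_, fun y hy hqy => ?_⟩
    · obtain ⟨t, ht, h1⟩ := hq j
      exact ⟨t, ht, h1.rename_isHomogeneous⟩
    · have h1 := hq0 _ hy fun j => by
        have h2 := hqy j
        rw [aeval_rename] at h2
        exact h2
      funext s
      have h2 := congrFun h1 (e₀ s)
      simpa using h2
  have himg : mgImage X g f = sectionImage Z' (fun j : Fin 0 => (j.elim0 : MvPolynomial _ K))
      (fun i => rename e₀.symm (lin (D := D) (f i))) := by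
    ext x
    constructor
    · rintro ⟨t, y, hy, h1, h2, hx⟩
      refine ⟨fun s => t * mon y (e₀ s), ?_, fun j => j.elim0, fun i => ?_⟩
      · change (fun s => t * mon y (e₀ (e₀.symm s))) ∈ Z
        simp only [Equiv.apply_symm_apply]
        exact (mem_SV _ _).2 ⟨y, t, hy, (comb_zero hXeq y).2 ⟨h1, h2⟩, fun μ => rfl⟩
      · rw [hx, aeval_rename]
        symm
        apply aeval_lin_smul (hf i)
        intro μ
        simp
    · rintro ⟨z, hz, -, hx⟩
      obtain ⟨y, t, hy, h1, h2, hw, h3⟩ := hpt _ hz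
      refine ⟨t, y, hy, h1, h2, fun i => ?_⟩
      rw [hx, aeval_rename, ← h3 i]
      rfl
  rw [himg]
  refine q1_image (c := 0) T B hQ _ (fun j => j.elim0) _ one_pos
    (fun i => (lin_hom (f i)).rename_isHomogeneous) ?_ ?_
  · intro z hz _ h0
    have h1 := hzero _ hz fun i => by
      have h2 := h0 i
      rw [aeval_rename] at h2
      exact h2
    funext s
    have h2 := congrFun h1 (e₀ s)
    simpa using h2
  · obtain ⟨q, hq, hq0⟩ := hQ.le
    exact ⟨q, hq, fun y hy => hq0 y hy.1⟩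

end Pool.Agent.L7h80.MG
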